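import Pool.Agent.Helper25.MOB.X0
import Pool.Agent.Helper25.MOB.A3
import Pool.Agent.Helper25.MOB.K2

/-!
Project L3 (MP_b6b996_nt), Part X: the third moment (case X2).

Let `a = #Qs ≥ 1`, `J = 2 ^ j ≥ 1`, `W = a Q0 J ≤ N ^ η r`, `r = N volume(R) ≤ N ^ (1/3 - 12 η)`,
`(a J)³ Q0 ≥ N ^ (2/3 - 30 η)`, `t = J / N`, `P = a² J² Q0³` and `Z = ⌊(N² / P) ^ (1/7) N ^ (-η)⌋₊`.
* `Q0² = W³ / ((a J)³ Q0) ≤ N ^ (1/3 - 3η)`, so `Q0 ≤ N ^ (1/6 - 3η/2)`; `P = W² Q0 ≤ N ^ (5/6 - 47η/2)`, so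
  `X ≥ N ^ (1/6 + 47η/14 - η)`, larger than `5 Q0`, and `2 Q0 < Z`.
* `32 t Q0² Z² < 1`: `(J Q0² Z²)^7 ≤ J^7 Q0^14 (N²/P)² ≤ N⁴ J³ Q0⁸ ≤ N⁴ W³ Q0⁵ ≤ N ^ (4 + 1 + 5/6)`.
* The rest is as in `MOB.case_two`: `squares_three`, left side at least `M = Z √W N ^ (-3η)`, the second and the third
  term at most `M / 4`, `X √W ≥ N ^ (1/3 - 4η)` as `(X √W) ^ 14 ≥ N⁴ N ^ (-14η) (aJ)³ Q0`.
-/

namespace Pool.Agent.Helper71.L3X

open Filter MeasureTheory Pool.Agent.Helper25.MOB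

private theorem rp71 {n : ℝ} (hn : 0 < n) (a b : ℝ) : n ^ a * n ^ b = n ^ (a + b) :=
  (Real.rpow_add hn a b).symm

private theorem rpk71 {n : ℝ} (hn : 0 < n) (a : ℝ) (k : ℕ) : (n ^ a) ^ k = n ^ (a * k) := by
  rw [← Real.rpow_natCast, ← Real.rpow_mul hn.le]

private theorem root71 {x y : ℝ} (hy : 0 ≤ y) {k : ℕ} (hk : k ≠ 0) (h : x ^ k ≤ y ^ k) : x ≤ y :=
  le_of_pow_le_pow_left₀ hk hy h

theorem caseX2 {η : ℝ} (hη : 0 < η) (hη1 : η ≤ 1 / 1000) : ∀ᶠ N : ℕ in atTop,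
    ∀ (R : Set UnitAddCircle) (Q0 j : ℕ) (Qs : Finset ℕ), MeasurableSet R → 1 ≤ Q0 →
      Qs ⊆ Finset.Ico Q0 (2 * Q0) → R ⊆ ⋃ q ∈ Qs, cl (2 ^ j / N) q → 0 < volume.real R →
      N * volume.real R ≤ (N : ℝ) ^ (1 / 3 - 12 * η) →
      (N : ℝ) ^ (2 / 3 - 30 * η) ≤ ((Qs.card : ℝ) * 2 ^ j) ^ 3 * Q0 →
      (Qs.card : ℝ) * Q0 * 2 ^ j ≤ (N : ℝ) ^ η * (N * volume.real R) →
      √(N * volume.real R) ≤ (N : ℝ) ^ η * ∫ y in R, ‖F N y‖ →
      (N : ℝ) ^ (1 / 3 - 12 * η) ≤ ∫ y, ‖F N y‖ := by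
  obtain ⟨H0, hH0⟩ := eventually_atTop.1 (primesIn_ge hη)
  filter_upwards [eventually_ge_atTop 1,
    rpow_ev 5 (show 1 / 6 - 3 * η / 2 < 1 / 6 + 2 * η by linarith),
    rpow_ev (2 * H0) (show (0 : ℝ) < 1 / 6 + 2 * η by linarith),
    rpow_ev 33 (show (5 / 6 : ℝ) < 1 by norm_num),
    rpow_ev 64 (show 1 / 6 + 2 / 7 < 1 / 2 - 3 * η by linarith),
    rpow_ev (16 * 2949120) (show -(7 * η) < -(6 * η) by linarith),
    rpow_ev 12 (show 1 / 3 - 12 * η < 1 / 3 - 7 * η by linarith)]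
    with N hN e1 e2 e3 e4 e5 e6 R Q0 j Qs hR hQ0 hQs hcov hpos hr hlow hW hI
  set n : ℝ := (N : ℝ) with hnd
  have hn1 : 1 ≤ n := by
    rw [hnd]
    exact_mod_cast hN
  have hn0 : 0 < n := lt_of_lt_of_le one_pos hn1
  have hQne : Qs.Nonempty := by
    rw [Finset.nonempty_iff_ne_empty]
    rintro rfl
    have h1 : R = ∅ := by
      refine Set.eq_empty_of_subset_empty fun x hx => ?_
      have h2 := hcov hx
      simp at h2
    rw [h1, measureReal_empty] at hpos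
    exact lt_irrefl _ hpos
  set a : ℝ := (Qs.card : ℝ) with had
  have ha : 1 ≤ a := by
    rw [had]
    exact_mod_cast hQne.card_pos
  set q : ℝ := (Q0 : ℝ) with hqd
  have hq : 1 ≤ q := by
    rw [hqd]
    exact_mod_cast hQ0
  set J : ℝ := (2 : ℝ) ^ j with hJd
  have hJ : 1 ≤ J := one_le_pow₀ one_le_two
  set r : ℝ := n * volume.real R with hrd
  have hr0 : 0 < r := mul_pos hn0 hpos
  have ha0 : 0 < a := lt_of_lt_of_le one_pos ha
  have hq0 : 0 < q := lt_of_lt_of_le one_pos hq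
  have hJ0 : 0 < J := lt_of_lt_of_le one_pos hJ
  set W : ℝ := a * q * J with hWd
  have hW0 : 0 < W := by positivity
  have hWn : W ≤ n ^ (1 / 3 - 11 * η) := by
    refine hW.trans ((mul_le_mul_of_nonneg_left hr (Real.rpow_nonneg hn0.le _)).trans (le_of_eq ?_))
    rw [rp71 hn0]
    congr 1
    ring
  have hWn3 : W ≤ n ^ (1 / 3 : ℝ) := hWn.trans (Real.rpow_le_rpow_of_exponent_le hn1 (by linarith))
  have hq2 : q ^ 2 ≤ n ^ (1 / 3 - 3 * η) := by
    have k1 : q ^ 2 * ((a * J) ^ 3 * q) = W ^ 3 := by rw [hWd]; ring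
    have k2 : W ^ 3 ≤ n ^ (1 - 33 * η) := by
      refine (pow_le_pow_left₀ hW0.le hWn 3).trans (le_of_eq ?_)
      rw [rpk71 hn0]
      congr 1
      push_cast
      ring
    have k3 : q ^ 2 * n ^ (2 / 3 - 30 * η) ≤ n ^ (1 - 33 * η) := by
      refine (mul_le_mul_of_nonneg_left hlow (by positivity)).trans ?_
      rw [k1]
      exact k2
    have k4 : n ^ (1 - 33 * η) = n ^ (1 / 3 - 3 * η) * n ^ (2 / 3 - 30 * η) := by
      rw [rp71 hn0]
      congr 1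
      ring
    rw [k4] at k3
    exact le_of_mul_le_mul_right k3 (Real.rpow_pos_of_pos hn0 _)
  have hqn : q ≤ n ^ (1 / 6 - 3 * η / 2) := by
    refine root71 (Real.rpow_nonneg hn0.le _) (k := 2) (by norm_num) (hq2.trans (le_of_eq ?_))
    rw [rpk71 hn0]
    congr 1
    push_cast
    ring
  have hqn6 : q ≤ n ^ (1 / 6 : ℝ) :=
    hqn.trans (Real.rpow_le_rpow_of_exponent_le hn1 (by linarith))
  set P : ℝ := a ^ 2 * J ^ 2 * q ^ 3 with hPd
  have hP0 : 0 < P := by positivity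
  have haJ1 : 1 ≤ a * J := one_le_mul_of_one_le_of_one_le ha hJ
  have hP1 : 1 ≤ P := by
    have e : P = (a * J) ^ 2 * q ^ 3 := by rw [hPd]; ring
    rw [e]
    exact one_le_mul_of_one_le_of_one_le (one_le_pow₀ haJ1) (one_le_pow₀ hq)
  have hPW : P = W ^ 2 * q := by
    rw [hPd, hWd]
    ring
  set X : ℝ := (n ^ 2 / P) ^ (1 / 7 : ℝ) * n ^ (-η) with hXd
  have hnP : 0 < n ^ 2 / P := by positivity
  have hX0 : 0 < X := mul_pos (Real.rpow_pos_of_pos hnP _) (Real.rpow_pos_of_pos hn0 _)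
  have hX7 : X ^ 7 * P = n ^ 2 * n ^ (-(7 * η)) := by
    have k1 : ((n ^ 2 / P) ^ (1 / 7 : ℝ)) ^ 7 = n ^ 2 / P := by
      rw [rpk71 hnP]
      norm_num
    have k2 : (n ^ (-η)) ^ 7 = n ^ (-(7 * η)) := by
      rw [rpk71 hn0]
      congr 1
      push_cast
      ring
    rw [hXd, mul_pow, k1, k2]
    field_simp
  have hn2 : n ^ 2 = n ^ (2 : ℝ) := (Real.rpow_two n).symm
  have hXle : X ≤ n ^ (2 / 7 : ℝ) := by
    refine root71 (Real.rpow_nonneg hn0.le _) (k := 7) (by norm_num) ?_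
    rw [rpk71 hn0]
    have k1 : (2 / 7 : ℝ) * ((7 : ℕ) : ℝ) = 2 := by norm_num
    rw [k1, ← hn2]
    have k2 : X ^ 7 ≤ X ^ 7 * P := le_mul_of_one_le_right (by positivity) hP1
    rw [hX7] at k2
    refine k2.trans (mul_le_of_le_one_right (by positivity) ?_)
    exact Real.rpow_le_one_of_one_le_of_nonpos hn1 (by linarith)
  have hXge : n ^ (1 / 6 + 2 * η) ≤ X := by
    refine root71 hX0.le (k := 7) (by norm_num) ?_
    rw [rpk71 hn0]
    refine le_of_mul_le_mul_right ?_ hP0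
    rw [hX7, hn2, rp71 hn0]
    have k1 : P ≤ n ^ (5 / 6 - 47 * η / 2) := by
      rw [hPW]
      refine (mul_le_mul (pow_le_pow_left₀ hW0.le hWn 2) hqn hq0.le
        (by positivity)).trans (le_of_eq ?_)
      rw [rpk71 hn0, rp71 hn0]
      congr 1
      push_cast
      ring
    refine (mul_le_mul_of_nonneg_left k1 (Real.rpow_nonneg hn0.le _)).trans ?_
    rw [rp71 hn0]
    refine Real.rpow_le_rpow_of_exponent_le hn1 ?_
    push_cast
    linarith
  set Z : ℕ := ⌊X⌋₊ with hZd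
  have hZX : (Z : ℝ) ≤ X := Nat.floor_le hX0.le
  have hXZ : X < Z + 1 := Nat.lt_floor_add_one X
  have hW1 : 1 ≤ n ^ (1 / 6 - 3 * η / 2) := Real.one_le_rpow hn1 (by linarith)
  have hX5 : 5 * n ^ (1 / 6 - 3 * η / 2) ≤ X := e1.trans hXge
  have hZ2 : X / 2 ≤ Z := by linarith
  have hZ0 : (0 : ℝ) < Z := by linarith
  have hZH : H0 ≤ Z := by
    have k1 : 2 * (H0 : ℝ) ≤ X := by
      rw [Real.rpow_zero, mul_one] at e2
      exact e2.trans hXge
    have k2 : (H0 : ℝ) ≤ Z := by linarith only [k1, hZ2]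
    exact_mod_cast k2
  have hZQ : 2 * Q0 < Z := by
    have k2 : 2 * q < Z := by linarith
    rw [hqd] at k2
    exact_mod_cast k2
  have ht : 0 ≤ J / n := by positivity
  have hZn : (Z : ℝ) ≤ n ^ (2 / 7 : ℝ) := hZX.trans hXle
  have hsmall : 32 * (J / n) * q ^ 2 * (Z : ℝ) ^ 2 < 1 := by
    have k2 : J * q ^ 2 * (Z : ℝ) ^ 2 ≤ n ^ (5 / 6 : ℝ) := by
      refine root71 (Real.rpow_nonneg hn0.le _) (k := 7) (by norm_num) ?_
      have k3 : (Z : ℝ) ^ 7 * P ≤ n ^ 2 := by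
        refine (mul_le_mul_of_nonneg_right (pow_le_pow_left₀ hZ0.le hZX 7) hP0.le).trans ?_
        rw [hX7]
        refine mul_le_of_le_one_right (by positivity) ?_
        exact Real.rpow_le_one_of_one_le_of_nonpos hn1 (by linarith)
      have k6 : (J ^ 2 * q ^ 3) * (Z : ℝ) ^ 7 ≤ n ^ 2 := by
        refine le_trans ?_ k3
        have e : (Z : ℝ) ^ 7 * P = (J ^ 2 * q ^ 3) * (Z : ℝ) ^ 7 * a ^ 2 := by rw [hPd]; ring
        rw [e]
        exact le_mul_of_one_le_right (by positivity) (one_le_pow₀ ha)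
      have k7 : (J * q ^ 2 * (Z : ℝ) ^ 2) ^ 7 =
          ((J ^ 2 * q ^ 3) * (Z : ℝ) ^ 7) ^ 2 * ((J * q) ^ 3 * q ^ 5) := by ring
      have k8 : J * q ≤ W := by
        have e : W = J * q * a := by rw [hWd]; ring
        rw [e]
        exact le_mul_of_one_le_right (by positivity) ha
      rw [k7]
      have k9 : ((J ^ 2 * q ^ 3) * (Z : ℝ) ^ 7) ^ 2 ≤ (n ^ 2) ^ 2 :=
        pow_le_pow_left₀ (by positivity) k6 2
      have k10 : (J * q) ^ 3 * q ^ 5 ≤ (n ^ (1 / 3 : ℝ)) ^ 3 * (n ^ (1 / 6 : ℝ)) ^ 5 :=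
        mul_le_mul (pow_le_pow_left₀ (by positivity) (k8.trans hWn3) 3)
          (pow_le_pow_left₀ hq0.le hqn6 5) (by positivity) (by positivity)
      refine (mul_le_mul k9 k10 (by positivity) (by positivity)).trans (le_of_eq ?_)
      rw [hn2, rpk71 hn0, rpk71 hn0, rpk71 hn0, rpk71 hn0, rp71 hn0, rp71 hn0]
      congr 1
      push_cast
      norm_num
    have k4 : 32 * (J / n) * q ^ 2 * (Z : ℝ) ^ 2 = 32 * (J * q ^ 2 * (Z : ℝ) ^ 2) / n := by ring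
    rw [k4, div_lt_one hn0]
    rw [Real.rpow_one] at e3
    have k5 : 0 < n ^ (5 / 6 : ℝ) := Real.rpow_pos_of_pos hn0 _
    linarith
  have key := squares_three N hQ0 hQs hZQ (t := J / n) ht hsmall R hR hcov
  rw [← hnd, ← had, ← hqd] at key
  set I : ℝ := ∫ z, ‖F N z‖ with hId
  set IR : ℝ := ∫ y in R, ‖F N y‖ with hIRd
  have hIR0 : 0 ≤ IR := integral_nonneg fun y => norm_nonneg _
  have hsW0 : 0 < √W := Real.sqrt_pos.2 hW0
  set M : ℝ := Z * √W * n ^ (-(3 * η)) with hMd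
  have hM0 : 0 ≤ M := by positivity
  -- the third term
  have hT3 : √n * √(180 * (J / n) * (a ^ 3 * Z * (128 * (J / n) * q ^ 2 * (Z : ℝ) ^ 4) ^ 2)) ≤ M / 4 := by
    rw [← Real.sqrt_mul hn0.le]
    refine Real.sqrt_le_iff.2 ⟨by positivity, ?_⟩
    have k1 : n * (180 * (J / n) * (a ^ 3 * Z * (128 * (J / n) * q ^ 2 * (Z : ℝ) ^ 4) ^ 2)) =
        (2949120 * (P * (Z : ℝ) ^ 7)) * ((Z : ℝ) ^ 2 * W) / n ^ 2 := by
      rw [hPd, hWd]
      field_simp
      ring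
    have k2 : (M / 4) ^ 2 = (1 / 16) * ((Z : ℝ) ^ 2 * W) * n ^ (-(6 * η)) := by
      have k3 : (n ^ (-(3 * η))) ^ 2 = n ^ (-(6 * η)) := by
        rw [rpk71 hn0]
        congr 1
        push_cast
        ring
      have k4 : √W ^ 2 = W := Real.sq_sqrt hW0.le
      calc (M / 4) ^ 2 = (1 / 16) * ((Z : ℝ) ^ 2 * √W ^ 2) * (n ^ (-(3 * η))) ^ 2 := by
            rw [hMd]
            ring
        _ = (1 / 16) * ((Z : ℝ) ^ 2 * W) * n ^ (-(6 * η)) := by rw [k3, k4]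
    rw [k1, k2, div_le_iff₀ (by positivity)]
    have k5 : P * (Z : ℝ) ^ 7 ≤ n ^ 2 * n ^ (-(7 * η)) := by
      rw [← hX7, mul_comm P]
      exact mul_le_mul_of_nonneg_right (pow_le_pow_left₀ hZ0.le hZX 7) hP0.le
    have k6 : 2949120 * (P * (Z : ℝ) ^ 7) ≤ (1 / 16) * (n ^ 2 * n ^ (-(6 * η))) := by
      have k7 := mul_le_mul_of_nonneg_left e5 (show (0 : ℝ) ≤ n ^ 2 by positivity)
      linarith
    have k8 := mul_le_mul_of_nonneg_right k6 (show (0 : ℝ) ≤ (Z : ℝ) ^ 2 * W by positivity)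
    refine k8.trans (le_of_eq ?_)
    ring
  -- the second term
  have hT2 : 16 * (J / n) * √n * a * q * (Z : ℝ) ^ 2 ≤ M / 4 := by
    have k1 : √n / n = n ^ (-(1 / 2) : ℝ) := by
      rw [Real.sqrt_eq_rpow, div_eq_iff hn0.ne']
      nth_rewrite 3 [← Real.rpow_one n]
      rw [rp71 hn0]
      norm_num
    have k2 : 16 * (J / n) * √n * a * q * (Z : ℝ) ^ 2 = (Z * √W) * (16 * √W * Z * (√n / n)) := by
      have k4 : √W * √W = W := Real.mul_self_sqrt hW0.le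
      calc 16 * (J / n) * √n * a * q * (Z : ℝ) ^ 2 = 16 * (Z : ℝ) ^ 2 * W * (√n / n) := by
            rw [hWd]
            ring
        _ = 16 * (Z : ℝ) ^ 2 * (√W * √W) * (√n / n) := by rw [k4]
        _ = (Z * √W) * (16 * √W * Z * (√n / n)) := by ring
    have k3 : √W ≤ n ^ (1 / 6 : ℝ) := by
      refine Real.sqrt_le_iff.2 ⟨Real.rpow_nonneg hn0.le _, hWn3.trans (le_of_eq ?_)⟩
      rw [rpk71 hn0]
      congr 1
      norm_num
    have k5 : 64 * (√W * Z) ≤ n ^ (1 / 2 - 3 * η) := by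
      refine le_trans ?_ e4
      refine mul_le_mul_of_nonneg_left ?_ (by norm_num)
      rw [← rp71 hn0]
      exact mul_le_mul k3 hZn hZ0.le (Real.rpow_nonneg hn0.le _)
    have k6 : 16 * √W * Z * (√n / n) ≤ n ^ (-(3 * η)) / 4 := by
      rw [k1]
      have k7 := mul_le_mul_of_nonneg_right k5 (Real.rpow_nonneg hn0.le (-(1 / 2) : ℝ))
      rw [rp71 hn0] at k7
      have k8 : (1 / 2 - 3 * η + -(1 / 2) : ℝ) = -(3 * η) := by ring
      rw [k8] at k7
      linarith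
    rw [k2]
    refine (mul_le_mul_of_nonneg_left k6 (by positivity)).trans (le_of_eq ?_)
    rw [hMd]
    ring
  -- the left side
  have hL : M ≤ (primesIn Z).card * IR := by
    have k1 : √W ≤ n ^ (η / 2) * √r := by
      have k2 : √(n ^ η) = n ^ (η / 2) := by
        rw [Real.sqrt_eq_rpow, ← Real.rpow_mul hn0.le]
        congr 1
        ring
      rw [← k2, ← Real.sqrt_mul (Real.rpow_nonneg hn0.le _)]
      exact Real.sqrt_le_sqrt hW
    have k3 : √W ≤ n ^ (3 * η / 2) * IR := by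
      refine k1.trans ((mul_le_mul_of_nonneg_left hI (Real.rpow_nonneg hn0.le _)).trans (le_of_eq ?_))
      rw [← mul_assoc, rp71 hn0]
      congr 2
      ring
    have k4 : (Z : ℝ) * n ^ (-η) ≤ (Z : ℝ) ^ (1 - η) := by
      have k5 : (Z : ℝ) ^ (1 - η) * (Z : ℝ) ^ η = Z := by
        rw [← Real.rpow_add hZ0, sub_add_cancel, Real.rpow_one]
      have k6 : (Z : ℝ) ^ η ≤ n ^ η := by
        refine Real.rpow_le_rpow hZ0.le (hZn.trans ?_) hη.le
        have k7 := Real.rpow_le_rpow_of_exponent_le hn1 (show (2 / 7 : ℝ) ≤ 1 by norm_num)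
        rwa [Real.rpow_one] at k7
      have k7 : n ^ η * n ^ (-η) = 1 := by
        rw [rp71 hn0, add_neg_cancel, Real.rpow_zero]
      calc (Z : ℝ) * n ^ (-η) = (Z : ℝ) ^ (1 - η) * ((Z : ℝ) ^ η * n ^ (-η)) := by
            rw [← mul_assoc, k5]
        _ ≤ (Z : ℝ) ^ (1 - η) * (n ^ η * n ^ (-η)) :=
            mul_le_mul_of_nonneg_left (mul_le_mul_of_nonneg_right k6 (Real.rpow_nonneg hn0.le _))
              (Real.rpow_nonneg hZ0.le _)
        _ = (Z : ℝ) ^ (1 - η) := by rw [k7, mul_one]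
    have k8 : M ≤ Z * n ^ (-η) * IR := by
      have k9 : √W * n ^ (-(3 * η)) ≤ n ^ (-η) * IR := by
        have k10 := mul_le_mul_of_nonneg_right k3 (Real.rpow_nonneg hn0.le (-(3 * η)))
        refine k10.trans ?_
        have k11 : n ^ (3 * η / 2) * IR * n ^ (-(3 * η)) = n ^ (-(3 * η / 2)) * IR := by
          rw [mul_right_comm, rp71 hn0]
          congr 2
          ring
        rw [k11]
        refine mul_le_mul_of_nonneg_right ?_ hIR0
        exact Real.rpow_le_rpow_of_exponent_le hn1 (by linarith)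
      have k12 := mul_le_mul_of_nonneg_left k9 hZ0.le
      refine le_trans (le_of_eq ?_) (k12.trans (le_of_eq ?_))
      · rw [hMd]
        ring
      · ring
    refine k8.trans (mul_le_mul_of_nonneg_right (k4.trans (hH0 Z hZH)) hIR0)
  have hfin : M ≤ 6 * I := by linarith
  have hXW : n ^ (1 / 3 - 4 * η) ≤ X * √W := by
    refine root71 (by positivity) (k := 14) (by norm_num) ?_
    rw [rpk71 hn0]
    have k1 : (X * √W) ^ 14 = (X ^ 7) ^ 2 * W ^ 7 := by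
      have k4 : √W ^ 2 = W := Real.sq_sqrt hW0.le
      calc (X * √W) ^ 14 = (X ^ 7) ^ 2 * (√W ^ 2) ^ 7 := by ring
        _ = (X ^ 7) ^ 2 * W ^ 7 := by rw [k4]
    have k2 : P ^ 2 * n ^ (2 / 3 - 30 * η) ≤ W ^ 7 := by
      have e : W ^ 7 = P ^ 2 * ((a * J) ^ 3 * q) := by rw [hPd, hWd]; ring
      rw [e]
      exact mul_le_mul_of_nonneg_left hlow (by positivity)
    rw [k1]
    refine le_trans ?_ (mul_le_mul_of_nonneg_left k2 (by positivity))
    rw [← mul_assoc, ← mul_pow, hX7, hn2, rp71 hn0, rpk71 hn0, rp71 hn0]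
    refine Real.rpow_le_rpow_of_exponent_le hn1 ?_
    push_cast
    linarith
  have hM2 : n ^ (1 / 3 - 7 * η) ≤ 2 * M := by
    have k1 : n ^ (1 / 3 - 7 * η) = n ^ (1 / 3 - 4 * η) * n ^ (-(3 * η)) := by
      rw [rp71 hn0]
      congr 1
      ring
    have k2 : X * √W ≤ 2 * (Z * √W) := by
      have := mul_le_mul_of_nonneg_right hZ2 hsW0.le
      linarith
    rw [k1]
    refine (mul_le_mul_of_nonneg_right (hXW.trans k2) (Real.rpow_nonneg hn0.le _)).trans (le_of_eq ?_)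
    rw [hMd]
    ring
  linarith

end Pool.Agent.Helper71.L3X
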