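import Pool.Agent.Helper71.L3X.X1
import Pool.Agent.Helper71.L3X.X2

/-!
Project L3 (MP_b6b996_nt), Part X: the two cases together, from the output of the structure theorem.

`sqrt_le`: `V ≤ ‖F N y‖` on `R` and `N ^ (1 - η) ≤ V² volume(R)` give `√(N volume(R)) ≤ N ^ η ∫_R ‖F N‖`.
`caseX`: then `N ^ (1/3 - 12 η) ≤ ∫ ‖F N‖` if `N volume(R) ≤ N ^ (2/3)` and either `N volume(R) ≥ N ^ (1/3 - 12 η)`
or `(#Qs 2^j)³ Q0 ≥ N ^ (2/3 - 30 η)`.
-/

namespace Pool.Agent.Helper71.L3X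

open Filter MeasureTheory Pool.Agent.Helper25.MOB

theorem sqrt_le {η : ℝ} (hη : 0 < η) {N : ℕ} (hN : 1 ≤ N) {R : Set UnitAddCircle}
    (hR : MeasurableSet R) {V : ℝ} (hV : 0 < V) (hlo : ∀ y ∈ R, V ≤ ‖F N y‖)
    (h2 : (N : ℝ) ^ (1 - η) ≤ V ^ 2 * volume.real R) :
    √(N * volume.real R) ≤ (N : ℝ) ^ η * ∫ y in R, ‖F N y‖ := by
  have hn1 : (1 : ℝ) ≤ N := by exact_mod_cast hN
  have hn0 : (0 : ℝ) < N := by linarith
  have hv : 0 ≤ volume.real R := measureReal_nonneg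
  have hF : V * volume.real R ≤ ∫ y in R, ‖F N y‖ := by
    have h1 : ∫ y in R, V = V * volume.real R := by
      rw [setIntegral_const, smul_eq_mul, mul_comm]
    rw [← h1]
    have hc : Continuous fun z : UnitAddCircle => ‖F N z‖ := (continuous_F N).norm
    have hint0 : Integrable (fun z : UnitAddCircle => ‖F N z‖) :=
      hc.integrable_of_hasCompactSupport (HasCompactSupport.of_compactSpace _)
    refine setIntegral_mono_on ?_ hint0.integrableOn hR hlo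
    exact integrableOn_const (measure_ne_top _ _)
  have hX : √(N * volume.real R) ≤ (N : ℝ) ^ η * (V * volume.real R) := by
    refine Real.sqrt_le_iff.2 ⟨by positivity, ?_⟩
    have e1 : (N : ℝ) = (N : ℝ) ^ (1 - η) * (N : ℝ) ^ η := by
      rw [← Real.rpow_add hn0]
      norm_num
    have e2 : (1 : ℝ) ≤ (N : ℝ) ^ η := Real.one_le_rpow hn1 hη.le
    calc (N : ℝ) * volume.real R = (N : ℝ) ^ (1 - η) * ((N : ℝ) ^ η * volume.real R) := by
          rw [← mul_assoc, ← e1]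
      _ ≤ (V ^ 2 * volume.real R) * ((N : ℝ) ^ η * volume.real R) :=
          mul_le_mul_of_nonneg_right h2 (by positivity)
      _ = (N : ℝ) ^ η * (V * volume.real R) ^ 2 := by ring
      _ ≤ (N : ℝ) ^ η * (N : ℝ) ^ η * (V * volume.real R) ^ 2 := by
          refine mul_le_mul_of_nonneg_right ?_ (by positivity)
          exact le_mul_of_one_le_left (by positivity) e2
      _ = ((N : ℝ) ^ η * (V * volume.real R)) ^ 2 := by ring
  exact hX.trans (mul_le_mul_of_nonneg_left hF (by positivity))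

theorem caseX {η : ℝ} (hη : 0 < η) (hη1 : η ≤ 1 / 1000) : ∀ᶠ N : ℕ in atTop,
    ∀ (R : Set UnitAddCircle) (V : ℝ) (Q0 j : ℕ) (Qs : Finset ℕ), MeasurableSet R → 0 < V →
      (∀ y ∈ R, V ≤ ‖F N y‖) → (N : ℝ) ^ (1 - η) ≤ V ^ 2 * volume.real R → 1 ≤ Q0 →
      Qs ⊆ Finset.Ico Q0 (2 * Q0) → R ⊆ ⋃ q ∈ Qs, cl (2 ^ j / N) q →
      (Qs.card : ℝ) * Q0 * 2 ^ j ≤ (N : ℝ) ^ η * (N * volume.real R) →
      N * volume.real R ≤ (N : ℝ) ^ (2 / 3 : ℝ) →
      ((N : ℝ) ^ (1 / 3 - 12 * η) ≤ N * volume.real R ∨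
        (N : ℝ) ^ (2 / 3 - 30 * η) ≤ ((Qs.card : ℝ) * 2 ^ j) ^ 3 * Q0) →
      (N : ℝ) ^ (1 / 3 - 12 * η) ≤ ∫ y, ‖F N y‖ := by
  filter_upwards [caseX1 hη hη1, caseX2 hη hη1, eventually_ge_atTop 1] with N h1 h2 hN
  intro R V Q0 j Qs hR hV hlo hvol hQ0 hQs hcov hW h23 hor
  have hn1 : (1 : ℝ) ≤ N := by exact_mod_cast hN
  have hn0 : (0 : ℝ) < N := by linarith
  have hpos : 0 < volume.real R := by
    have h3 : 0 < V ^ 2 * volume.real R := lt_of_lt_of_le (Real.rpow_pos_of_pos hn0 _) hvol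
    exact pos_of_mul_pos_right h3 (sq_nonneg V)
  have hI := sqrt_le hη hN hR hV hlo hvol
  rcases le_total ((N : ℝ) ^ (1 / 3 - 12 * η)) (N * volume.real R) with h3 | h3
  · exact h1 R Q0 j Qs hR hQ0 hQs hcov hpos h3 h23 hW hI
  · rcases hor with h4 | h4
    · exact h1 R Q0 j Qs hR hQ0 hQs hcov hpos h4 h23 hW hI
    · exact h2 R Q0 j Qs hR hQ0 hQs hcov hpos h3 h4 hW hI

end Pool.Agent.Helper71.L3X
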